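import Pool.Agent.R140.JBS
import Pool.Agent.R140.Miss

set_option autoImplicit false

/-!
# Spheres with small missing faces and the `g`-numbers of a join of boundaries of simplices

Only the face numbers of the faces with at most `L + 1` elements are needed to recognise a join of
boundary complexes of simplices among the complexes without missing faces with more than `L + 1`
elements.
-/

open Finset

namespace Pool.Agent.N889.GU

open Pool.Agent.R140.Sph

/-- If `X` and `Y` have the same numbers of faces with at most `L` elements and `Y` has at most one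
missing face with fewer than `L` elements, then `X` and `Y` have the same numbers of missing faces
with at most `L` elements. -/
lemma count_missing_le {X Y : Cplx} (L : ℕ) (hL : 1 ≤ L)
    (hf : ∀ s ≤ L, numFaces X.faces s = numFaces Y.faces s)
    (hY : ∀ t < L, ∀ t' < L, ∀ τ ∈ missN Y t, ∀ τ' ∈ missN Y t', τ = τ') :
    ∀ s ≤ L, (missN X s).card = (missN Y s).card := by
  classical
  have hn : (verts X).card = (verts Y).card := by
    rw [← numFaces_one, ← numFaces_one, hf 1 hL]
  have hnf : ∀ s ≤ L, (nonf X s).card = (nonf Y s).card := by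
    intro s hs
    have h1 := card_nonf X s
    have h2 := card_nonf Y s
    rw [hf s hs, hn] at h1
    omega
  intro s
  induction s using Nat.strong_induction_on with
  | _ s ih =>
    intro hs
    have h1 := card_nonf_split X s
    have h2 := card_nonf_split Y s
    have h3 : (((verts X).powersetCard s).filter fun S =>
        ∃ t < s, ∃ τ ∈ missN X t, τ ⊆ S).card = (((verts Y).powersetCard s).filter fun S =>
        ∃ t < s, ∃ τ ∈ missN Y t, τ ⊆ S).card := by
      by_cases hex : ∃ t < s, ∃ τ, τ ∈ missN Y t
      · obtain ⟨t, ht, τ, hτ⟩ := hex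
        have hYt : missN Y t = {τ} := by
          ext σ
          rw [Finset.mem_singleton]
          constructor
          · intro hσ
            exact hY t (by omega) t (by omega) σ hσ τ hτ
          · rintro rfl
            exact hτ
        have hXt : (missN X t).card = 1 := by
          rw [ih t ht (by omega), hYt, Finset.card_singleton]
        obtain ⟨σ, hσ⟩ := Finset.card_eq_one.1 hXt
        have hYo : ∀ t' < s, t' ≠ t → missN Y t' = ∅ := by
          intro t' ht' hne
          rw [Finset.eq_empty_iff_forall_notMem]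
          intro τ' hτ'
          have h4 := hY t' (by omega) t (by omega) τ' hτ' τ hτ
          subst h4
          exact hne ((mem_missN.1 hτ').2.1.symm.trans (mem_missN.1 hτ).2.1)
        have hXo : ∀ t' < s, t' ≠ t → missN X t' = ∅ := by
          intro t' ht' hne
          rw [← Finset.card_eq_zero, ih t' ht' (by omega), hYo t' ht' hne, Finset.card_empty]
        have hσ' : σ ∈ missN X t := by rw [hσ]; exact Finset.mem_singleton_self _
        rw [mem_missN] at hτ hσ'
        have h5 : (((verts X).powersetCard s).filter fun S =>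
            ∃ t < s, ∃ τ ∈ missN X t, τ ⊆ S) =
            ((verts X).powersetCard s).filter fun S => σ ⊆ S := by
          refine Finset.filter_congr fun S _ => ?_
          constructor
          · rintro ⟨t', ht', τ', hτ', hs'⟩
            by_cases hne : t' = t
            · subst hne
              rw [hσ, Finset.mem_singleton] at hτ'
              exact hτ' ▸ hs'
            · rw [hXo t' ht' hne] at hτ'
              exact absurd hτ' (Finset.notMem_empty _)
          · intro h
            exact ⟨t, ht, σ, mem_missN.2 hσ', h⟩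
        have h6 : (((verts Y).powersetCard s).filter fun S =>
            ∃ t < s, ∃ τ ∈ missN Y t, τ ⊆ S) =
            ((verts Y).powersetCard s).filter fun S => τ ⊆ S := by
          refine Finset.filter_congr fun S _ => ?_
          constructor
          · rintro ⟨t', ht', τ', hτ', hs'⟩
            have := hY t' (by omega) t (by omega) τ' hτ' τ (mem_missN.2 hτ)
            exact this ▸ hs'
          · intro h
            exact ⟨t, ht, τ, mem_missN.2 hτ, h⟩
        rw [h5, h6, card_supersets _ _ hσ'.1 _ (by omega), card_supersets _ _ hτ.1 _ (by omega),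
          hn, hσ'.2.1, hτ.2.1]
      · push Not at hex
        have h5 : (((verts Y).powersetCard s).filter fun S =>
            ∃ t < s, ∃ τ ∈ missN Y t, τ ⊆ S) = ∅ := by
          rw [Finset.filter_eq_empty_iff]
          rintro S _ ⟨t, ht, τ, hτ, _⟩
          exact hex t ht τ hτ
        have h6 : (((verts X).powersetCard s).filter fun S =>
            ∃ t < s, ∃ τ ∈ missN X t, τ ⊆ S) = ∅ := by
          rw [Finset.filter_eq_empty_iff]
          rintro S _ ⟨t, ht, τ, hτ, _⟩
          have h7 : (missN X t).card = 0 := by
            rw [ih t ht (by omega), Finset.card_eq_zero, Finset.eq_empty_iff_forall_notMem]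
            exact hex t ht
          rw [Finset.card_eq_zero] at h7
          rw [h7] at hτ
          exact absurd hτ (Finset.notMem_empty _)
        rw [h5, h6]
    have h4 := hnf s hs
    omega

/-- A complex of dimension at most `d - 1` without missing faces with more than `L + 1` elements
and with the same numbers of faces with at most `L + 1` elements as the join of the boundary
complexes of the simplices in `ℬ` is isomorphic to that join. -/
theorem unique_of_faces (ℬ : Finset (Finset ℕ)) (h : ∅ ∉ ℬ)
    (hdis : (ℬ : Set (Finset ℕ)).PairwiseDisjoint id) (h2 : ∀ B ∈ ℬ, 2 ≤ B.card) (d L : ℕ)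
    (hs : ∑ B ∈ ℬ, B.card = d + ℬ.card) (hL : ∀ B ∈ ℬ, B.card ≤ L + 1)
    (hone : ∀ B ∈ ℬ, ∀ B' ∈ ℬ, B.card ≤ L → B'.card ≤ L → B = B')
    {X : Cplx} (hX : ∀ F ∈ X.faces, F.card ≤ d)
    (hmX : ∀ τ ⊆ verts X, IsMissing X τ → τ.card ≤ L + 1)
    (hf : ∀ s ≤ L + 1, numFaces X.faces s = numFaces (joinBdry ℬ h).faces s) :
    Iso X (joinBdry ℬ h) := by
  classical
  set K := joinBdry ℬ h with hK
  have hKf : K.faces = jbFaces ℬ := rfl
  have hmK : miss K = ℬ := missing_jb ℬ h hdis h2
  have hcount := count_missing_le (L + 1) (by omega) hf (by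
    intro t ht t' ht' τ hτ τ' hτ'
    rw [missN_eq_filter, hmK, Finset.mem_filter] at hτ hτ'
    exact hone τ hτ.1 τ' hτ'.1 (by omega) (by omega))
  have hfib : ∀ s, ((miss X).filter fun τ => τ.card = s).card =
      (ℬ.filter fun B => B.card = s).card := by
    intro s
    rcases Nat.lt_or_ge (L + 1) s with hlt | hle
    · have e1 : (miss X).filter (fun τ => τ.card = s) = ∅ := by
        rw [Finset.filter_eq_empty_iff]
        intro τ hτ hc
        have := hmX τ (mem_miss.1 hτ).1 (mem_miss.1 hτ).2
        omega
      have e2 : ℬ.filter (fun τ => τ.card = s) = ∅ := by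
        rw [Finset.filter_eq_empty_iff]
        intro τ hτ hc
        have := hL τ hτ
        omega
      rw [e1, e2]
    · have := hcount s hle
      rw [missN_eq_filter, missN_eq_filter, hmK] at this
      exact this
  obtain ⟨e, he, hec⟩ := exists_bijOn_of_fibers (miss X) ℬ Finset.card Finset.card hfib
  have hcard : (miss X).card = ℬ.card := by
    have himg : (miss X).image e = ℬ := by
      ext B
      rw [Finset.mem_image]
      constructor
      · rintro ⟨τ, hτ, rfl⟩
        exact he.mapsTo hτ
      · intro hB
        obtain ⟨τ, hτ, h1⟩ := he.surjOn hB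
        exact ⟨τ, hτ, h1⟩
    rw [← himg, Finset.card_image_of_injOn he.injOn]
  have hsumcard : ∑ τ ∈ miss X, τ.card = ∑ B ∈ ℬ, B.card := by
    refine Finset.sum_bij (fun τ _ => e τ) (fun τ hτ => he.mapsTo hτ)
      (fun τ hτ τ' hτ' h1 => he.injOn hτ hτ' h1) (fun B hB => ?_)
      (fun τ hτ => (hec τ hτ).symm)
    obtain ⟨τ, hτ, h1⟩ := he.surjOn hB
    exact ⟨τ, hτ, h1⟩
  have hsupcard : ∀ M : Finset (Finset ℕ), (M : Set (Finset ℕ)).PairwiseDisjoint id →
      (M.sup id).card = ∑ B ∈ M, B.card := by
    intro M hM
    rw [Finset.sup_eq_biUnion, Finset.card_biUnion hM]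
    rfl
  have hn : (verts X).card = d + ℬ.card := by
    rw [← numFaces_one, hf 1 (by omega), numFaces_one, verts_jb ℬ h h2, hsupcard ℬ hdis, hs]
  have hmd : ((miss X : Finset (Finset ℕ)) : Set (Finset ℕ)).PairwiseDisjoint id :=
    miss_disjoint hX (by rw [hcard, hn]; omega)
  have hV : (miss X).sup id = verts X := by
    apply Finset.eq_of_subset_of_card_le
    · intro x hx
      obtain ⟨τ, hτ, hxτ⟩ := Finset.mem_sup.1 hx
      exact (mem_miss.1 hτ).1 hxτ
    · rw [hn, hsupcard _ hmd, hsumcard, hs]
  have hXf : X.faces = jbFaces (miss X) := by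
    ext F
    rw [mem_jbFaces, hV]
    constructor
    · intro hF
      exact ⟨face_sub hF, (face_iff_miss (face_sub hF)).1 hF⟩
    · rintro ⟨h1, h3⟩
      exact (face_iff_miss h1).2 h3
  obtain ⟨φ, hφ, hφF⟩ := iso_jb (miss X) ℬ hmd hdis e he (fun τ hτ => hec τ hτ)
  refine ⟨φ, ?_, ?_⟩
  · rw [verts_jb ℬ h h2, ← hV]
    exact hφ
  · intro F hF
    rw [hXf, hKf]
    exact hφF F (by rw [hV]; exact hF)

/-- equal `g`-numbers up to `m` give equal face numbers up to `m`, for `m ≤ d` -/
lemma faces_eq_of_g_le {d : ℕ} {X Y : Finset (Finset ℕ)} (m : ℕ)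
    (h0 : numFaces X 0 = numFaces Y 0)
    (hg : ∀ j ≤ m, gNum d X j = gNum d Y j) : ∀ j ≤ m, numFaces X j = numFaces Y j := by
  have hh : ∀ j ≤ m, hNum d X j = hNum d Y j := by
    intro j
    induction j with
    | zero =>
      intro _
      unfold hNum
      simp [h0]
    | succ j ih =>
      intro hj
      have h1 := hg (j + 1) hj
      unfold gNum at h1
      rw [if_neg (Nat.succ_ne_zero j), if_neg (Nat.succ_ne_zero j), Nat.add_sub_cancel] at h1
      have h2 := ih (by omega)
      linarith
  intro j
  induction j using Nat.strong_induction_on with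
  | _ j ih =>
    intro hj
    have h1 := hh j hj
    unfold hNum at h1
    rw [Finset.sum_range_succ, Finset.sum_range_succ] at h1
    have h2 : ∑ i ∈ range j, (-1 : ℤ) ^ (j - i) * ((d - i).choose (d - j) : ℤ) * (numFaces X i : ℤ)
        = ∑ i ∈ range j, (-1 : ℤ) ^ (j - i) * ((d - i).choose (d - j) : ℤ) *
          (numFaces Y i : ℤ) := by
      refine Finset.sum_congr rfl fun i hi => ?_
      rw [Finset.mem_range] at hi
      rw [ih i hi (by omega)]
    rw [h2] at h1
    have h3 := add_left_cancel h1
    simp only [Nat.sub_self, pow_zero, Nat.choose_self, Nat.cast_one, one_mul] at h3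
    exact_mod_cast h3

/-- isomorphic complexes have the same face numbers -/
lemma numFaces_of_iso {X Y : Cplx} (h : Iso X Y) (s : ℕ) :
    numFaces X.faces s = numFaces Y.faces s := by
  classical
  obtain ⟨φ, hb, hf⟩ := h
  unfold numFaces
  refine Finset.card_bij (fun τ _ => τ.image φ) ?_ ?_ ?_
  · intro τ hτ
    rw [mem_level] at hτ ⊢
    refine ⟨(hf τ (face_sub hτ.1)).1 hτ.1, ?_⟩
    rw [Finset.card_image_of_injOn, hτ.2]
    intro x hx y hy hxy
    exact hb.injOn (face_sub hτ.1 hx) (face_sub hτ.1 hy) hxy
  · intro τ hτ τ' hτ' h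
    rw [mem_level] at hτ hτ'
    have key : ∀ σ σ' : Finset ℕ, σ ∈ X.faces → σ' ∈ X.faces → σ.image φ = σ'.image φ → σ ⊆ σ' := by
      intro σ σ' hσ hσ' h x hx
      have h1 : φ x ∈ σ'.image φ := by rw [← h]; exact Finset.mem_image_of_mem φ hx
      obtain ⟨z, hz, hzx⟩ := Finset.mem_image.1 h1
      have := hb.injOn (face_sub hσ' hz) (face_sub hσ hx) hzx
      exact this ▸ hz
    exact Finset.Subset.antisymm (key _ _ hτ.1 hτ'.1 h) (key _ _ hτ'.1 hτ.1 h.symm)
  · intro τ hτ
    rw [mem_level] at hτ
    have h3 : ((verts X).filter fun x => φ x ∈ τ).image φ = τ := by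
      ext y
      rw [Finset.mem_image]
      constructor
      · rintro ⟨x, hx, rfl⟩
        exact (Finset.mem_filter.1 hx).2
      · intro hy
        obtain ⟨x, hx, rfl⟩ := hb.surjOn (face_sub hτ.1 hy)
        exact ⟨x, Finset.mem_filter.2 ⟨hx, hy⟩, rfl⟩
    have h4 : ((verts X).filter fun x => φ x ∈ τ) ⊆ verts X := Finset.filter_subset _ _
    refine ⟨(verts X).filter fun x => φ x ∈ τ, ?_, h3⟩
    rw [mem_level]
    refine ⟨(hf _ h4).2 (by rw [h3]; exact hτ.1), ?_⟩
    rw [← hτ.2, ← congrArg Finset.card h3, Finset.card_image_of_injOn]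
    · intro x hx y hy hxy
      exact hb.injOn (h4 hx) (h4 hy) hxy

end Pool.Agent.N889.GU
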